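import Mathlib

/-!
# Leavitt path algebras of finite quivers and Kronecker squares

Definitions for the problem MP_40e4cd_al.
-/

set_option autoImplicit false

namespace Pool.Agent.R859.LK

universe u

/-- A finite quiver: finite sets of vertices and of arrows, source map and range map. -/
structure FinQuiver where
  /-- The vertices. -/
  V : Type
  /-- The arrows. -/
  E : Type
  [fV : Fintype V]
  [dV : DecidableEq V]
  [fE : Fintype E]
  [dE : DecidableEq E]
  /-- The source map. -/
  s : E → V
  /-- The range map. -/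
  r : E → V

attribute [instance] FinQuiver.fV FinQuiver.dV FinQuiver.fE FinQuiver.dE

/-- The Kronecker square: pairs of vertices, pairs of arrows. -/
def FinQuiver.square (Q : FinQuiver) : FinQuiver where
  V := Q.V × Q.V
  E := Q.E × Q.E
  s e := (Q.s e.1, Q.s e.2)
  r e := (Q.r e.1, Q.r e.2)

/-- The generators of the Leavitt path algebra: vertices, arrows `e` and ghost arrows `e*`. -/
inductive Gen (Q : FinQuiver) : Type
  | vert (v : Q.V) : Gen Q
  | arrow (e : Q.E) : Gen Q
  | ghost (e : Q.E) : Gen Q

open FreeAlgebra in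
/-- The defining relations of the Leavitt path algebra of a finite quiver, inside the free unital
algebra; the relation `sum_vert` says that the sum of the vertices is the unit element. -/
inductive Rel (K : Type u) [Field K] (Q : FinQuiver) :
    FreeAlgebra K (Gen Q) → FreeAlgebra K (Gen Q) → Prop
  | vert_sq (v : Q.V) : Rel K Q (ι K (.vert v) * ι K (.vert v)) (ι K (.vert v))
  | vert_orth (v w : Q.V) (h : v ≠ w) : Rel K Q (ι K (.vert v) * ι K (.vert w)) 0
  | sum_vert : Rel K Q (∑ v, ι K (.vert v)) 1
  | source_arrow (e : Q.E) : Rel K Q (ι K (.vert (Q.s e)) * ι K (.arrow e)) (ι K (.arrow e))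
  | arrow_range (e : Q.E) : Rel K Q (ι K (.arrow e) * ι K (.vert (Q.r e))) (ι K (.arrow e))
  | range_ghost (e : Q.E) : Rel K Q (ι K (.vert (Q.r e)) * ι K (.ghost e)) (ι K (.ghost e))
  | ghost_source (e : Q.E) : Rel K Q (ι K (.ghost e) * ι K (.vert (Q.s e))) (ι K (.ghost e))
  | ghost_arrow (e : Q.E) : Rel K Q (ι K (.ghost e) * ι K (.arrow e)) (ι K (.vert (Q.r e)))
  | ghost_arrow_ne (e f : Q.E) (h : e ≠ f) : Rel K Q (ι K (.ghost e) * ι K (.arrow f)) 0
  | emit (v : Q.V) (h : ∃ e, Q.s e = v) :
      Rel K Q (∑ e with Q.s e = v, ι K (.arrow e) * ι K (.ghost e)) (ι K (.vert v))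

/-- The Leavitt path algebra `L_K(Q)` of a finite quiver. -/
abbrev LPA (K : Type u) [Field K] (Q : FinQuiver) : Type u := RingQuot (Rel K Q)

end Pool.Agent.R859.LK
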