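import Mathlib
import Pool.Agent.R859.LK.Defs

/-!
# Families of elements satisfying the relations of a Leavitt path algebra
-/

set_option autoImplicit false

namespace Pool.Agent.R859.LK

universe u w

/-- A family of elements of an algebra satisfying the relations of `L_K(Q)`. -/
structure Fam (K : Type u) [Field K] (Q : FinQuiver) (A : Type w) [Ring A] [Algebra K A] where
  v : Q.V → A
  a : Q.E → A
  g : Q.E → A
  vv : ∀ x, v x * v x = v x
  vw : ∀ x y, x ≠ y → v x * v y = 0
  sum : ∑ x, v x = 1
  va : ∀ e, v (Q.s e) * a e = a e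
  ar : ∀ e, a e * v (Q.r e) = a e
  rg : ∀ e, v (Q.r e) * g e = g e
  gs : ∀ e, g e * v (Q.s e) = g e
  ga : ∀ e, g e * a e = v (Q.r e)
  gf : ∀ e f, e ≠ f → g e * a f = 0
  em : ∀ x, (∃ e, Q.s e = x) → ∑ e with Q.s e = x, a e * g e = v x

section

variable {K : Type u} [Field K] {Q : FinQuiver} {A : Type w} [Ring A] [Algebra K A]

/-- The value of a family on a generator. -/
def Fam.val (F : Fam K Q A) : Gen Q → A
  | .vert v => F.v v
  | .arrow e => F.a e
  | .ghost e => F.g e

/-- The homomorphism defined by a family. -/
noncomputable def Fam.lift (F : Fam K Q A) : LPA K Q →ₐ[K] A :=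
  RingQuot.liftAlgHom K ⟨FreeAlgebra.lift K F.val, by
    intro x y h
    induction h with
    | vert_sq v => simpa [Fam.val] using F.vv v
    | vert_orth v w h => simpa [Fam.val] using F.vw v w h
    | sum_vert => simpa [Fam.val] using F.sum
    | source_arrow e => simpa [Fam.val] using F.va e
    | arrow_range e => simpa [Fam.val] using F.ar e
    | range_ghost e => simpa [Fam.val] using F.rg e
    | ghost_source e => simpa [Fam.val] using F.gs e
    | ghost_arrow e => simpa [Fam.val] using F.ga e
    | ghost_arrow_ne e f h => simpa [Fam.val] using F.gf e f h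
    | emit v h => simpa [Fam.val] using F.em v h⟩

/-- The generators as elements of the Leavitt path algebra. -/
noncomputable def mkg (K : Type u) [Field K] {Q : FinQuiver} (x : Gen Q) : LPA K Q :=
  RingQuot.mkAlgHom K (Rel K Q) (FreeAlgebra.ι K x)

lemma Fam.lift_mkg (F : Fam K Q A) (x : Gen Q) : F.lift (mkg K x) = F.val x := by
  rw [Fam.lift, mkg, RingQuot.liftAlgHom_mkAlgHom_apply, FreeAlgebra.lift_ι_apply]

lemma hom_ext {f g : LPA K Q →ₐ[K] A} (h : ∀ x, f (mkg K x) = g (mkg K x)) : f = g := by
  apply RingQuot.ringQuot_ext'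
  apply FreeAlgebra.hom_ext
  funext x
  exact h x

variable (K Q) in
/-- The universal family. -/
noncomputable def univ : Fam K Q (LPA K Q) where
  v x := mkg K (.vert x)
  a e := mkg K (.arrow e)
  g e := mkg K (.ghost e)
  vv x := by
    have := RingQuot.mkAlgHom_rel K (Rel.vert_sq (K := K) x)
    rwa [map_mul] at this
  vw x y h := by
    have := RingQuot.mkAlgHom_rel K (Rel.vert_orth (K := K) x y h)
    rwa [map_mul, map_zero] at this
  sum := by
    have := RingQuot.mkAlgHom_rel K (Rel.sum_vert (K := K) (Q := Q))
    rwa [map_sum, map_one] at this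
  va e := by
    have := RingQuot.mkAlgHom_rel K (Rel.source_arrow (K := K) e)
    rwa [map_mul] at this
  ar e := by
    have := RingQuot.mkAlgHom_rel K (Rel.arrow_range (K := K) e)
    rwa [map_mul] at this
  rg e := by
    have := RingQuot.mkAlgHom_rel K (Rel.range_ghost (K := K) e)
    rwa [map_mul] at this
  gs e := by
    have := RingQuot.mkAlgHom_rel K (Rel.ghost_source (K := K) e)
    rwa [map_mul] at this
  ga e := by
    have := RingQuot.mkAlgHom_rel K (Rel.ghost_arrow (K := K) e)
    rwa [map_mul] at this
  gf e f h := by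
    have := RingQuot.mkAlgHom_rel K (Rel.ghost_arrow_ne (K := K) e f h)
    rwa [map_mul, map_zero] at this
  em x h := by
    have := RingQuot.mkAlgHom_rel K (Rel.emit (K := K) x h)
    rw [map_sum] at this
    simp only [map_mul] at this
    exact this

end

end Pool.Agent.R859.LK
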