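import Mathlib
import Pool.Agent.R859.LK.Basic

/-!
# Isomorphisms of Leavitt path algebras
-/

set_option autoImplicit false

namespace Pool.Agent.R859.LK

universe u w

/-- An isomorphism of quivers. -/
structure QIso (Q Q' : FinQuiver) where
  eV : Q.V ≃ Q'.V
  eE : Q.E ≃ Q'.E
  hs : ∀ e, Q'.s (eE e) = eV (Q.s e)
  hr : ∀ e, Q'.r (eE e) = eV (Q.r e)

/-- The inverse isomorphism. -/
def QIso.symm {Q Q' : FinQuiver} (i : QIso Q Q') : QIso Q' Q where
  eV := i.eV.symm
  eE := i.eE.symm
  hs e := by rw [Equiv.eq_symm_apply, ← i.hs, Equiv.apply_symm_apply]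
  hr e := by rw [Equiv.eq_symm_apply, ← i.hr, Equiv.apply_symm_apply]

section

variable {K : Type u} [Field K] {Q Q' : FinQuiver} {A : Type w} [Ring A] [Algebra K A]

/-- Pulling back a family along an isomorphism of quivers. -/
def Fam.comap (F : Fam K Q' A) (i : QIso Q Q') : Fam K Q A where
  v x := F.v (i.eV x)
  a e := F.a (i.eE e)
  g e := F.g (i.eE e)
  vv x := F.vv _
  vw x y h := F.vw _ _ (fun h' => h (i.eV.injective h'))
  sum := by
    rw [← F.sum]
    exact Equiv.sum_comp i.eV F.v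
  va e := by rw [← i.hs, F.va]
  ar e := by rw [← i.hr, F.ar]
  rg e := by rw [← i.hr, F.rg]
  gs e := by rw [← i.hs, F.gs]
  ga e := by rw [← i.hr, F.ga]
  gf e f h := F.gf _ _ (fun h' => h (i.eE.injective h'))
  em x h := by
    obtain ⟨e, he⟩ := h
    rw [← F.em (i.eV x) ⟨i.eE e, by rw [i.hs, he]⟩]
    apply Finset.sum_equiv i.eE
    · intro e
      simp only [Finset.mem_filter, Finset.mem_univ, true_and, i.hs, i.eV.apply_eq_iff_eq]
    · intro e _
      rfl

theorem lpa_congr (K : Type u) [Field K] (i : QIso Q Q') : Nonempty (LPA K Q ≃ₐ[K] LPA K Q') := by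
  refine ⟨AlgEquiv.ofAlgHom ((univ K Q').comap i).lift ((univ K Q).comap i.symm).lift ?_ ?_⟩
  · apply hom_ext
    intro x
    rw [AlgHom.comp_apply, Fam.lift_mkg, AlgHom.id_apply]
    cases x with
    | vert v =>
      change ((univ K Q').comap i).lift (mkg K (.vert (i.eV.symm v))) = _
      rw [Fam.lift_mkg]
      change mkg K (.vert (i.eV (i.eV.symm v))) = _
      rw [Equiv.apply_symm_apply]
    | arrow e =>
      change ((univ K Q').comap i).lift (mkg K (.arrow (i.eE.symm e))) = _
      rw [Fam.lift_mkg]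
      change mkg K (.arrow (i.eE (i.eE.symm e))) = _
      rw [Equiv.apply_symm_apply]
    | ghost e =>
      change ((univ K Q').comap i).lift (mkg K (.ghost (i.eE.symm e))) = _
      rw [Fam.lift_mkg]
      change mkg K (.ghost (i.eE (i.eE.symm e))) = _
      rw [Equiv.apply_symm_apply]
  · apply hom_ext
    intro x
    rw [AlgHom.comp_apply, Fam.lift_mkg, AlgHom.id_apply]
    cases x with
    | vert v =>
      change ((univ K Q).comap i.symm).lift (mkg K (.vert (i.eV v))) = _
      rw [Fam.lift_mkg]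
      change mkg K (.vert (i.eV.symm (i.eV v))) = _
      rw [Equiv.symm_apply_apply]
    | arrow e =>
      change ((univ K Q).comap i.symm).lift (mkg K (.arrow (i.eE e))) = _
      rw [Fam.lift_mkg]
      change mkg K (.arrow (i.eE.symm (i.eE e))) = _
      rw [Equiv.symm_apply_apply]
    | ghost e =>
      change ((univ K Q).comap i.symm).lift (mkg K (.ghost (i.eE e))) = _
      rw [Fam.lift_mkg]
      change mkg K (.ghost (i.eE.symm (i.eE e))) = _
      rw [Equiv.symm_apply_apply]

end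

section RJ

variable (ι κ : Type) [Fintype ι] [DecidableEq ι] [Fintype κ] [DecidableEq κ]

/-- One vertex with loops indexed by `ι`, and isolated vertices indexed by `κ`. -/
abbrev QR : FinQuiver where
  V := Option κ
  E := ι
  s _ := none
  r _ := none

/-- Vertices indexed by `ι` with exactly one arrow from each one to each one, and isolated vertices
indexed by `κ`. -/
abbrev QJ : FinQuiver where
  V := ι ⊕ κ
  E := ι × ι
  s e := Sum.inl e.1
  r e := Sum.inl e.2

variable {ι κ} {K : Type u} [Field K] {A : Type w} [Ring A] [Algebra K A]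

lemma gR (F : Fam K (QR ι κ) A) (i j : ι) : F.g i * F.a j = if i = j then F.v none else 0 := by
  split_ifs with h
  · subst h; exact F.ga i
  · exact F.gf i j h

lemma sumR [Nonempty ι] (F : Fam K (QR ι κ) A) : ∑ i : ι, F.a i * F.g i = F.v none := by
  have := F.em none ⟨Classical.arbitrary ι, rfl⟩
  rw [← this]
  apply Finset.sum_congr _ (fun _ _ => rfl)
  exact (Finset.filter_true_of_mem (s := (Finset.univ : Finset (QR ι κ).E))
    (p := fun e => (QR ι κ).s e = none) (fun _ _ => rfl)).symm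

/-- A family for `QJ` from a family for `QR`. -/
def famJ [Nonempty ι] (F : Fam K (QR ι κ) A) : Fam K (QJ ι κ) A where
  v x := Sum.elim (fun i : ι => F.a i * F.g i) (fun k : κ => F.v (some k)) x
  a e := F.a e.1 * F.a e.2 * F.g e.2
  g e := F.a e.2 * F.g e.2 * F.g e.1
  vv x := by
    rcases x with i | k
    · change F.a i * F.g i * (F.a i * F.g i) = F.a i * F.g i
      have h1 : F.g i * F.a i = F.v none := F.ga i
      have h2 : F.a i * F.v none = F.a i := F.ar i
      rw [mul_assoc, ← mul_assoc (F.g i), h1, ← mul_assoc, h2]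
    · exact F.vv _
  vw x y h := by
    rcases x with i | k <;> rcases y with j | l
    · change F.a i * F.g i * (F.a j * F.g j) = 0
      have hij : i ≠ j := fun e => h (by rw [e])
      have h1 : F.g i * F.a j = 0 := F.gf i j hij
      rw [mul_assoc, ← mul_assoc (F.g i), h1, zero_mul, mul_zero]
    · change F.a i * F.g i * F.v (some l) = 0
      have h1 : F.g i * F.v none = F.g i := F.gs i
      have h2 : F.v none * F.v (some l) = 0 :=
        F.vw _ _ (fun e => nomatch (e : (none : Option κ) = some l))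
      rw [← h1, mul_assoc, mul_assoc, h2, mul_zero, mul_zero]
    · change F.v (some k) * (F.a j * F.g j) = 0
      have h1 : F.v none * F.a j = F.a j := F.va j
      have h2 : F.v (some k) * F.v none = 0 :=
        F.vw _ _ (fun e => nomatch (e : some k = (none : Option κ)))
      rw [← h1, ← mul_assoc, ← mul_assoc, h2, zero_mul, zero_mul]
    · exact F.vw _ _ (fun e => h (by rw [Option.some.inj e]))
  sum := by
    have h := F.sum
    have e1 : ∑ x, F.v x = F.v none + ∑ k : κ, F.v (some k) := Fintype.sum_option F.v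
    rw [e1] at h
    have e2 : ∑ x : ι ⊕ κ, Sum.elim (fun i : ι => F.a i * F.g i) (fun k : κ => F.v (some k)) x =
        ∑ i : ι, F.a i * F.g i + ∑ k : κ, F.v (some k) := Fintype.sum_sum_type _
    refine e2.trans ?_
    rw [sumR, h]
  va e := by
    change F.a e.1 * F.g e.1 * (F.a e.1 * F.a e.2 * F.g e.2) = F.a e.1 * F.a e.2 * F.g e.2
    have h1 : F.g e.1 * F.a e.1 = F.v none := F.ga e.1
    have h2 : F.a e.1 * F.v none = F.a e.1 := F.ar e.1
    calc F.a e.1 * F.g e.1 * (F.a e.1 * F.a e.2 * F.g e.2)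
        = F.a e.1 * (F.g e.1 * F.a e.1) * F.a e.2 * F.g e.2 := by noncomm_ring
      _ = _ := by rw [h1, h2]
  ar e := by
    change F.a e.1 * F.a e.2 * F.g e.2 * (F.a e.2 * F.g e.2) = F.a e.1 * F.a e.2 * F.g e.2
    have h1 : F.g e.2 * F.a e.2 = F.v none := F.ga e.2
    have h2 : F.a e.2 * F.v none = F.a e.2 := F.ar e.2
    calc F.a e.1 * F.a e.2 * F.g e.2 * (F.a e.2 * F.g e.2)
        = F.a e.1 * (F.a e.2 * (F.g e.2 * F.a e.2)) * F.g e.2 := by noncomm_ring
      _ = _ := by rw [h1, h2]
  rg e := by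
    change F.a e.2 * F.g e.2 * (F.a e.2 * F.g e.2 * F.g e.1) = F.a e.2 * F.g e.2 * F.g e.1
    have h1 : F.g e.2 * F.a e.2 = F.v none := F.ga e.2
    have h2 : F.a e.2 * F.v none = F.a e.2 := F.ar e.2
    calc F.a e.2 * F.g e.2 * (F.a e.2 * F.g e.2 * F.g e.1)
        = (F.a e.2 * (F.g e.2 * F.a e.2)) * F.g e.2 * F.g e.1 := by noncomm_ring
      _ = _ := by rw [h1, h2]
  gs e := by
    change F.a e.2 * F.g e.2 * F.g e.1 * (F.a e.1 * F.g e.1) = F.a e.2 * F.g e.2 * F.g e.1
    have h1 : F.g e.1 * F.a e.1 = F.v none := F.ga e.1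
    have h3 : F.v none * F.g e.1 = F.g e.1 := F.rg e.1
    calc F.a e.2 * F.g e.2 * F.g e.1 * (F.a e.1 * F.g e.1)
        = F.a e.2 * F.g e.2 * ((F.g e.1 * F.a e.1) * F.g e.1) := by noncomm_ring
      _ = _ := by rw [h1, h3]
  ga e := by
    change F.a e.2 * F.g e.2 * F.g e.1 * (F.a e.1 * F.a e.2 * F.g e.2) = F.a e.2 * F.g e.2
    have h1 : F.g e.1 * F.a e.1 = F.v none := F.ga e.1
    have h4 : F.g e.2 * F.a e.2 = F.v none := F.ga e.2
    have h5 : F.v none * F.a e.2 = F.a e.2 := F.va e.2
    have h2 : F.a e.2 * F.v none = F.a e.2 := F.ar e.2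
    calc F.a e.2 * F.g e.2 * F.g e.1 * (F.a e.1 * F.a e.2 * F.g e.2)
        = F.a e.2 * (F.g e.2 * ((F.g e.1 * F.a e.1) * F.a e.2)) * F.g e.2 := by noncomm_ring
      _ = _ := by rw [h1, h5, h4, h2]
  gf e f h := by
    have h1 : F.g e.1 * F.a f.1 = if e.1 = f.1 then F.v none else 0 := gR F e.1 f.1
    have h2 : F.g e.2 * F.a f.2 = if e.2 = f.2 then F.v none else 0 := gR F e.2 f.2
    have h5 : F.v none * F.a f.2 = F.a f.2 := F.va f.2
    have e1 : F.a e.2 * F.g e.2 * F.g e.1 * (F.a f.1 * F.a f.2 * F.g f.2) =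
        F.a e.2 * (F.g e.2 * ((F.g e.1 * F.a f.1) * F.a f.2)) * F.g f.2 := by noncomm_ring
    rw [e1, h1]
    by_cases h3 : e.1 = f.1
    · have h4 : e.2 ≠ f.2 := fun h4 => h (Prod.ext h3 h4)
      rw [if_pos h3, h5, h2, if_neg h4, mul_zero, zero_mul]
    · rw [if_neg h3, zero_mul, mul_zero, mul_zero, zero_mul]
  em x h := by
    obtain ⟨e0, he0⟩ := h
    rcases x with i | k
    · have hs : ∑ e ∈ (Finset.univ : Finset (ι × ι)) with Sum.inl (β := κ) e.1 = Sum.inl i,
          (F.a e.1 * F.a e.2 * F.g e.2) * (F.a e.2 * F.g e.2 * F.g e.1) =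
          ∑ j : ι, (F.a i * F.a j * F.g j) * (F.a j * F.g j * F.g i) := by
        apply Finset.sum_nbij' (fun e => e.2) (fun j => (i, j))
        · intro e _; exact Finset.mem_univ _
        · intro j _
          simp
        · intro e he
          simp only [Finset.mem_filter, Finset.mem_univ, true_and, Sum.inl.injEq] at he
          rw [← he]
        · intro j _; rfl
        · intro e he
          simp only [Finset.mem_filter, Finset.mem_univ, true_and, Sum.inl.injEq] at he
          rw [← he]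
      refine Eq.trans (Eq.trans ?_ hs) ?_
      · rfl
      · change _ = F.a i * F.g i
        have h3 : F.v none * F.g i = F.g i := F.rg i
        have e1 : ∀ j : ι, (F.a i * F.a j * F.g j) * (F.a j * F.g j * F.g i) =
            F.a i * (F.a j * F.g j) * F.g i := by
          intro j
          have h1 : F.g j * F.a j = F.v none := F.ga j
          have h2 : F.a j * F.v none = F.a j := F.ar j
          calc (F.a i * F.a j * F.g j) * (F.a j * F.g j * F.g i)
              = F.a i * ((F.a j * (F.g j * F.a j)) * F.g j) * F.g i := by noncomm_ring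
            _ = _ := by rw [h1, h2]
        rw [Finset.sum_congr rfl (fun j _ => e1 j), ← Finset.sum_mul, ← Finset.mul_sum, sumR,
          mul_assoc, h3]
    · exact absurd he0 (fun e => nomatch (e : (Sum.inl e0.1 : ι ⊕ κ) = Sum.inr k))

lemma gaJ (F : Fam K (QJ ι κ) A) (i j : ι) :
    F.g (i, j) * F.a (i, j) = F.v (Sum.inl j) := F.ga (i, j)

lemma a_ne (F : Fam K (QJ ι κ) A) {i j i' j' : ι} (h : j ≠ i') :
    F.a (i, j) * F.a (i', j') = 0 := by
  have h1 : F.a (i, j) * F.v (Sum.inl j) = F.a (i, j) := F.ar (i, j)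
  have h2 : F.v (Sum.inl i') * F.a (i', j') = F.a (i', j') := F.va (i', j')
  have h3 : F.v (Sum.inl j) * F.v (Sum.inl i') = 0 := F.vw _ _ (fun e => h (Sum.inl.inj e))
  calc F.a (i, j) * F.a (i', j')
      = F.a (i, j) * F.v (Sum.inl j) * (F.v (Sum.inl i') * F.a (i', j')) := by rw [h1, h2]
    _ = F.a (i, j) * (F.v (Sum.inl j) * F.v (Sum.inl i')) * F.a (i', j') := by noncomm_ring
    _ = 0 := by rw [h3, mul_zero, zero_mul]

lemma ag_ne (F : Fam K (QJ ι κ) A) {i j i' j' : ι} (h : j ≠ j') :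
    F.a (i, j) * F.g (i', j') = 0 := by
  have h1 : F.a (i, j) * F.v (Sum.inl j) = F.a (i, j) := F.ar (i, j)
  have h2 : F.v (Sum.inl j') * F.g (i', j') = F.g (i', j') := F.rg (i', j')
  have h3 : F.v (Sum.inl j) * F.v (Sum.inl j') = 0 := F.vw _ _ (fun e => h (Sum.inl.inj e))
  calc F.a (i, j) * F.g (i', j')
      = F.a (i, j) * F.v (Sum.inl j) * (F.v (Sum.inl j') * F.g (i', j')) := by rw [h1, h2]
    _ = F.a (i, j) * (F.v (Sum.inl j) * F.v (Sum.inl j')) * F.g (i', j') := by noncomm_ring
    _ = 0 := by rw [h3, mul_zero, zero_mul]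

lemma ga_ne (F : Fam K (QJ ι κ) A) {i j i' j' : ι} (h : (i, j) ≠ (i', j')) :
    F.g (i, j) * F.a (i', j') = 0 := F.gf (i, j) (i', j') h

lemma sumJ (F : Fam K (QJ ι κ) A) (i : ι) :
    ∑ j : ι, F.a (i, j) * F.g (i, j) = F.v (Sum.inl i) := by
  have := F.em (Sum.inl i) ⟨(i, i), rfl⟩
  rw [← this]
  symm
  apply Finset.sum_nbij' (fun e => e.2) (fun j => (i, j))
  · intro e _; exact Finset.mem_univ _
  · intro j _
    exact Finset.mem_filter.2 ⟨Finset.mem_univ _, rfl⟩
  · intro e he
    have : e.1 = i := Sum.inl.inj (Finset.mem_filter.1 he).2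
    rw [← this]
  · intro j _; rfl
  · intro e he
    have : e.1 = i := Sum.inl.inj (Finset.mem_filter.1 he).2
    rw [← this]

/-- A family for `QR` from a family for `QJ`. -/
def famR (F : Fam K (QJ ι κ) A) : Fam K (QR ι κ) A where
  v x := Option.elim (α := κ) x (∑ i : ι, F.v (Sum.inl i)) (fun k => F.v (Sum.inr k))
  a i := ∑ j : ι, F.a (i, j)
  g i := ∑ j : ι, F.g (i, j)
  vv x := by
    rcases x with _ | k
    · change (∑ i : ι, F.v (Sum.inl i)) * (∑ i : ι, F.v (Sum.inl i)) = ∑ i : ι, F.v (Sum.inl i)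
      rw [Finset.sum_mul]
      apply Finset.sum_congr rfl
      intro i _
      rw [Finset.mul_sum, Finset.sum_eq_single i]
      · exact F.vv _
      · intro j _ hj
        exact F.vw _ _ (fun e => hj (Sum.inl.inj e).symm)
      · intro h; exact absurd (Finset.mem_univ _) h
    · exact F.vv _
  vw x y h := by
    rcases x with _ | k <;> rcases y with _ | l
    · exact absurd rfl h
    · change (∑ i : ι, F.v (Sum.inl i)) * F.v (Sum.inr l) = 0
      rw [Finset.sum_mul]
      apply Finset.sum_eq_zero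
      intro i _
      exact F.vw _ _ (fun e => nomatch (e : (Sum.inl i : ι ⊕ κ) = Sum.inr l))
    · change F.v (Sum.inr k) * (∑ i : ι, F.v (Sum.inl i)) = 0
      rw [Finset.mul_sum]
      apply Finset.sum_eq_zero
      intro i _
      exact F.vw _ _ (fun e => nomatch (e : (Sum.inr k : ι ⊕ κ) = Sum.inl i))
    · exact F.vw _ _ (fun e => h (by rw [Sum.inr.inj e]))
  sum := by
    have h := F.sum
    have e1 : ∑ x, F.v x = ∑ i : ι, F.v (Sum.inl i) + ∑ k : κ, F.v (Sum.inr k) :=
      Fintype.sum_sum_type F.v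
    rw [e1] at h
    have e2 : ∑ x : Option κ,
        Option.elim x (∑ i : ι, F.v (Sum.inl i)) (fun k => F.v (Sum.inr k)) =
        ∑ i : ι, F.v (Sum.inl i) + ∑ k : κ, F.v (Sum.inr k) := Fintype.sum_option _
    exact e2.trans h
  va i := by
    change (∑ l : ι, F.v (Sum.inl l)) * (∑ j : ι, F.a (i, j)) = ∑ j : ι, F.a (i, j)
    rw [Finset.mul_sum]
    apply Finset.sum_congr rfl
    intro j _
    rw [Finset.sum_mul, Finset.sum_eq_single i]
    · exact F.va (i, j)
    · intro l _ hl
      have h2 : F.v (Sum.inl i) * F.a (i, j) = F.a (i, j) := F.va (i, j)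
      have h3 : F.v (Sum.inl l) * F.v (Sum.inl i) = 0 := F.vw _ _ (fun e => hl (Sum.inl.inj e))
      rw [← h2, ← mul_assoc, h3, zero_mul]
    · intro h; exact absurd (Finset.mem_univ _) h
  ar i := by
    change (∑ j : ι, F.a (i, j)) * (∑ l : ι, F.v (Sum.inl l)) = ∑ j : ι, F.a (i, j)
    rw [Finset.sum_mul]
    apply Finset.sum_congr rfl
    intro j _
    rw [Finset.mul_sum, Finset.sum_eq_single j]
    · exact F.ar (i, j)
    · intro l _ hl
      have h2 : F.a (i, j) * F.v (Sum.inl j) = F.a (i, j) := F.ar (i, j)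
      have h3 : F.v (Sum.inl j) * F.v (Sum.inl l) = 0 :=
        F.vw _ _ (fun e => hl (Sum.inl.inj e).symm)
      rw [← h2, mul_assoc, h3, mul_zero]
    · intro h; exact absurd (Finset.mem_univ _) h
  rg i := by
    change (∑ l : ι, F.v (Sum.inl l)) * (∑ j : ι, F.g (i, j)) = ∑ j : ι, F.g (i, j)
    rw [Finset.mul_sum]
    apply Finset.sum_congr rfl
    intro j _
    rw [Finset.sum_mul, Finset.sum_eq_single j]
    · exact F.rg (i, j)
    · intro l _ hl
      have h2 : F.v (Sum.inl j) * F.g (i, j) = F.g (i, j) := F.rg (i, j)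
      have h3 : F.v (Sum.inl l) * F.v (Sum.inl j) = 0 := F.vw _ _ (fun e => hl (Sum.inl.inj e))
      rw [← h2, ← mul_assoc, h3, zero_mul]
    · intro h; exact absurd (Finset.mem_univ _) h
  gs i := by
    change (∑ j : ι, F.g (i, j)) * (∑ l : ι, F.v (Sum.inl l)) = ∑ j : ι, F.g (i, j)
    rw [Finset.sum_mul]
    apply Finset.sum_congr rfl
    intro j _
    rw [Finset.mul_sum, Finset.sum_eq_single i]
    · exact F.gs (i, j)
    · intro l _ hl
      have h2 : F.g (i, j) * F.v (Sum.inl i) = F.g (i, j) := F.gs (i, j)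
      have h3 : F.v (Sum.inl i) * F.v (Sum.inl l) = 0 :=
        F.vw _ _ (fun e => hl (Sum.inl.inj e).symm)
      rw [← h2, mul_assoc, h3, mul_zero]
    · intro h; exact absurd (Finset.mem_univ _) h
  ga i := by
    change (∑ j : ι, F.g (i, j)) * (∑ j : ι, F.a (i, j)) = ∑ j : ι, F.v (Sum.inl j)
    rw [Finset.sum_mul]
    apply Finset.sum_congr rfl
    intro j _
    rw [Finset.mul_sum, Finset.sum_eq_single j]
    · exact F.ga (i, j)
    · intro l _ hl
      exact ga_ne F (fun e => hl (Prod.ext_iff.1 e).2.symm)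
    · intro h; exact absurd (Finset.mem_univ _) h
  gf i i' h := by
    change (∑ j : ι, F.g (i, j)) * (∑ j : ι, F.a (i', j)) = 0
    rw [Finset.sum_mul]
    apply Finset.sum_eq_zero
    intro j _
    rw [Finset.mul_sum]
    apply Finset.sum_eq_zero
    intro l _
    exact ga_ne F (fun e => h (Prod.ext_iff.1 e).1)
  em x h := by
    obtain ⟨e0, he0⟩ := h
    rcases x with _ | k
    · have hf : (Finset.univ.filter fun e : ι => (none : Option κ) = none) = Finset.univ :=
        Finset.filter_true_of_mem (fun _ _ => rfl)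
      have e1 : ∑ i : ι, (∑ j : ι, F.a (i, j)) * (∑ j : ι, F.g (i, j)) =
          ∑ i : ι, F.v (Sum.inl i) := by
        apply Finset.sum_congr rfl
        intro i _
        rw [← sumJ F i, Finset.sum_mul]
        apply Finset.sum_congr rfl
        intro j _
        rw [Finset.mul_sum, Finset.sum_eq_single j]
        · intro l _ hl
          exact ag_ne F (Ne.symm hl)
        · intro h; exact absurd (Finset.mem_univ _) h
      refine Eq.trans ?_ e1
      apply Finset.sum_congr _ (fun _ _ => rfl)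
      exact Finset.filter_true_of_mem (s := (Finset.univ : Finset (QR ι κ).E))
        (p := fun e => (QR ι κ).s e = none) (fun _ _ => rfl)
    · exact absurd he0 (fun e => nomatch (e : (none : Option κ) = some k))

theorem lpa_RJ (K : Type u) [Field K] [Nonempty ι] :
    Nonempty (LPA K (QR ι κ) ≃ₐ[K] LPA K (QJ ι κ)) := by
  set f : LPA K (QR ι κ) →ₐ[K] LPA K (QJ ι κ) := (famR (univ K (QJ ι κ))).lift with hf
  set g : LPA K (QJ ι κ) →ₐ[K] LPA K (QR ι κ) := (famJ (univ K (QR ι κ))).lift with hg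
  have fa : ∀ i : ι, f (mkg K (Q := QR ι κ) (.arrow i)) =
      ∑ j : ι, mkg K (Q := QJ ι κ) (.arrow (i, j)) := fun i => Fam.lift_mkg _ _
  have fg : ∀ i : ι, f (mkg K (Q := QR ι κ) (.ghost i)) =
      ∑ j : ι, mkg K (Q := QJ ι κ) (.ghost (i, j)) := fun i => Fam.lift_mkg _ _
  have fn : f (mkg K (Q := QR ι κ) (.vert none)) =
      ∑ i : ι, mkg K (Q := QJ ι κ) (.vert (Sum.inl i)) := Fam.lift_mkg _ _
  have fs : ∀ k : κ, f (mkg K (Q := QR ι κ) (.vert (some k))) =
      mkg K (Q := QJ ι κ) (.vert (Sum.inr k)) := fun k => Fam.lift_mkg _ _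
  have gi : ∀ i : ι, g (mkg K (Q := QJ ι κ) (.vert (Sum.inl i))) =
      mkg K (Q := QR ι κ) (.arrow i) * mkg K (Q := QR ι κ) (.ghost i) :=
    fun i => Fam.lift_mkg _ _
  have gk : ∀ k : κ, g (mkg K (Q := QJ ι κ) (.vert (Sum.inr k))) =
      mkg K (Q := QR ι κ) (.vert (some k)) := fun k => Fam.lift_mkg _ _
  have gra : ∀ i j : ι, g (mkg K (Q := QJ ι κ) (.arrow (i, j))) =
      mkg K (Q := QR ι κ) (.arrow i) * mkg K (Q := QR ι κ) (.arrow j) *
        mkg K (Q := QR ι κ) (.ghost j) := fun i j => Fam.lift_mkg _ _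
  have grg : ∀ i j : ι, g (mkg K (Q := QJ ι κ) (.ghost (i, j))) =
      mkg K (Q := QR ι κ) (.arrow j) * mkg K (Q := QR ι κ) (.ghost j) *
        mkg K (Q := QR ι κ) (.ghost i) := fun i j => Fam.lift_mkg _ _
  let UR := univ K (QR ι κ)
  let UJ := univ K (QJ ι κ)
  have hsR : ∑ i : ι, mkg K (Q := QR ι κ) (.arrow i) * mkg K (Q := QR ι κ) (.ghost i) =
      mkg K (Q := QR ι κ) (.vert none) := sumR UR
  refine ⟨AlgEquiv.ofAlgHom f g ?_ ?_⟩
  · apply hom_ext
    intro x
    rw [AlgHom.comp_apply, AlgHom.id_apply]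
    have key : ∀ i : ι, f (mkg K (Q := QR ι κ) (.arrow i)) * f (mkg K (Q := QR ι κ) (.ghost i)) =
        mkg K (Q := QJ ι κ) (.vert (Sum.inl i)) := by
      intro i
      rw [fa, fg, Finset.sum_mul]
      refine Eq.trans ?_ (sumJ UJ i)
      apply Finset.sum_congr rfl
      intro j _
      rw [Finset.mul_sum, Finset.sum_eq_single j]
      · rfl
      · intro l _ hl
        exact ag_ne UJ (Ne.symm hl)
      · intro h; exact absurd (Finset.mem_univ _) h
    rcases x with v | e | e
    · rcases v with i | k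
      · rw [gi, map_mul, key]
      · rw [gk, fs]
    · obtain ⟨i, j⟩ := e
      rw [gra, map_mul, map_mul, mul_assoc, key, fa, Finset.sum_mul, Finset.sum_eq_single j]
      · exact UJ.ar (i, j)
      · intro l _ hl
        have h2 : UJ.a (i, l) * UJ.v (Sum.inl l) = UJ.a (i, l) := UJ.ar (i, l)
        have h3 : UJ.v (Sum.inl l) * UJ.v (Sum.inl j) = 0 := UJ.vw _ _ (fun e => hl (Sum.inl.inj e))
        change UJ.a (i, l) * UJ.v (Sum.inl j) = 0
        rw [← h2, mul_assoc, h3, mul_zero]
      · intro h; exact absurd (Finset.mem_univ _) h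
    · obtain ⟨i, j⟩ := e
      rw [grg, map_mul, map_mul, key, fg, Finset.mul_sum, Finset.sum_eq_single j]
      · exact UJ.rg (i, j)
      · intro l _ hl
        have h2 : UJ.v (Sum.inl l) * UJ.g (i, l) = UJ.g (i, l) := UJ.rg (i, l)
        have h3 : UJ.v (Sum.inl j) * UJ.v (Sum.inl l) = 0 :=
          UJ.vw _ _ (fun e => hl (Sum.inl.inj e).symm)
        change UJ.v (Sum.inl j) * UJ.g (i, l) = 0
        rw [← h2, ← mul_assoc, h3, zero_mul]
      · intro h; exact absurd (Finset.mem_univ _) h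
  · apply hom_ext
    intro x
    rw [AlgHom.comp_apply, AlgHom.id_apply]
    rcases x with v | i | i
    · rcases v with _ | k
      · have e1 : f (mkg K (Q := QR ι κ) (.vert none)) = _ := fn
        refine (congrArg g e1).trans ?_
        rw [map_sum]
        simp only [gi]
        exact hsR
      · exact (congrArg g (fs k)).trans (gk k)
    · rw [fa, map_sum]
      simp only [gra, mul_assoc]
      rw [← Finset.mul_sum, hsR]
      exact UR.ar i
    · rw [fg, map_sum]
      simp only [grg]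
      rw [← Finset.sum_mul, hsR]
      exact UR.rg i

end RJ

end Pool.Agent.R859.LK
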