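import Mathlib
import Pool.Agent.R859.LK.Iso

/-!
# Two quivers whose Kronecker squares have isomorphic Leavitt path algebras
-/

set_option autoImplicit false

namespace Pool.Agent.R859.LK

universe u

section Squares

variable (ι κ : Type) [Fintype ι] [DecidableEq ι] [Fintype κ] [DecidableEq κ]

/-- The square of `QR ι κ`. -/
def squareR : QIso (QR ι κ).square (QR (ι × ι) ((κ ⊕ κ) ⊕ (κ × κ))) where
  eV := {
    toFun := fun p : Option κ × Option κ => match p with
      | (none, none) => none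
      | (some k, none) => some (Sum.inl (Sum.inl k))
      | (none, some k) => some (Sum.inl (Sum.inr k))
      | (some k, some l) => some (Sum.inr (k, l))
    invFun := fun q : Option ((κ ⊕ κ) ⊕ (κ × κ)) => match q with
      | none => ((none, none) : Option κ × Option κ)
      | some (Sum.inl (Sum.inl k)) => (some k, none)
      | some (Sum.inl (Sum.inr k)) => (none, some k)
      | some (Sum.inr (k, l)) => (some k, some l)
    left_inv := by rintro ⟨_ | k, _ | l⟩ <;> rfl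
    right_inv := by rintro (_ | ((k | k) | ⟨k, l⟩)) <;> rfl }
  eE := Equiv.refl (ι × ι)
  hs _ := rfl
  hr _ := rfl

/-- The square of `QJ ι κ`. -/
def squareJ : QIso (QJ ι κ).square (QJ (ι × ι) (((ι × κ) ⊕ (κ × ι)) ⊕ (κ × κ))) where
  eV := {
    toFun := fun p : (ι ⊕ κ) × (ι ⊕ κ) => match p with
      | (Sum.inl i, Sum.inl j) => Sum.inl (i, j)
      | (Sum.inl i, Sum.inr k) => Sum.inr (Sum.inl (Sum.inl (i, k)))
      | (Sum.inr k, Sum.inl i) => Sum.inr (Sum.inl (Sum.inr (k, i)))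
      | (Sum.inr k, Sum.inr l) => Sum.inr (Sum.inr (k, l))
    invFun := fun q : (ι × ι) ⊕ (((ι × κ) ⊕ (κ × ι)) ⊕ (κ × κ)) => match q with
      | Sum.inl (i, j) => ((Sum.inl i, Sum.inl j) : (ι ⊕ κ) × (ι ⊕ κ))
      | Sum.inr (Sum.inl (Sum.inl (i, k))) => (Sum.inl i, Sum.inr k)
      | Sum.inr (Sum.inl (Sum.inr (k, i))) => (Sum.inr k, Sum.inl i)
      | Sum.inr (Sum.inr (k, l)) => (Sum.inr k, Sum.inr l)
    left_inv := by rintro ⟨i | k, j | l⟩ <;> rfl
    right_inv := by rintro (⟨i, j⟩ | ((⟨i, k⟩ | ⟨k, i⟩) | ⟨k, l⟩)) <;> rfl }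
  eE := Equiv.prodProdProdComm ι ι ι ι
  hs _ := rfl
  hr _ := rfl

variable {ι κ}

/-- Renaming the isolated vertices. -/
def renameR {κ' : Type} [Fintype κ'] [DecidableEq κ'] (e : κ ≃ κ') : QIso (QR ι κ) (QR ι κ') where
  eV := Equiv.optionCongr e
  eE := Equiv.refl ι
  hs _ := rfl
  hr _ := rfl

end Squares

theorem squares_iso (K : Type u) [Field K] :
    Nonempty (LPA K (QR (Fin 4) (Fin 6)).square ≃ₐ[K] LPA K (QJ (Fin 4) (Fin 4)).square) := by
  have hcard : Fintype.card ((Fin 6 ⊕ Fin 6) ⊕ (Fin 6 × Fin 6)) =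
      Fintype.card (((Fin 4 × Fin 4) ⊕ (Fin 4 × Fin 4)) ⊕ (Fin 4 × Fin 4)) := by
    simp
  obtain ⟨e1⟩ := lpa_congr K (squareR (Fin 4) (Fin 6))
  obtain ⟨e2⟩ := lpa_congr K (renameR (ι := Fin 4 × Fin 4) (Fintype.equivOfCardEq hcard))
  obtain ⟨e3⟩ := lpa_RJ (ι := Fin 4 × Fin 4)
    (κ := ((Fin 4 × Fin 4) ⊕ (Fin 4 × Fin 4)) ⊕ (Fin 4 × Fin 4)) K
  obtain ⟨e4⟩ := lpa_congr K (squareJ (Fin 4) (Fin 4))
  exact ⟨((e1.trans e2).trans e3).trans e4.symm⟩

section Chars

variable {ι κ : Type} [Fintype ι] [DecidableEq ι] [Fintype κ] [DecidableEq κ]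
  {K : Type u} [Field K]

/-- The character of `L(QR)` at an isolated vertex. -/
def charFam (k : κ) : Fam K (QR ι κ) K where
  v x := if (x : Option κ) = some k then 1 else 0
  a _ := 0
  g _ := 0
  vv x := by split_ifs <;> simp
  vw x y h := by
    by_cases h1 : (x : Option κ) = some k
    · rw [if_neg (fun h2 : (y : Option κ) = some k => h (h1.trans h2.symm)), mul_zero]
    · rw [if_neg h1, zero_mul]
  sum := by
    have : ∑ x : Option κ, (if x = some k then (1 : K) else 0) = 1 := by simp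
    exact this
  va _ := mul_zero _
  ar _ := zero_mul _
  rg _ := mul_zero _
  gs _ := zero_mul _
  ga _ := by simp
  gf _ _ _ := mul_zero _
  em x h := by
    obtain ⟨_, h⟩ := h
    rw [← h]
    simp

lemma charFam_val (k l : κ) :
    (charFam (ι := ι) (K := K) k).lift (mkg K (.vert (some l))) = if l = k then 1 else 0 := by
  rw [Fam.lift_mkg]
  change (if (some l : Option κ) = some k then (1 : K) else 0) = _
  simp

lemma exists_vertex [Nontrivial ι] (φ : LPA K (QJ ι κ) →ₐ[K] K) :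
    ∃ k : κ, φ (mkg K (.vert (Sum.inr k))) = 1 := by
  let U := univ K (QJ ι κ)
  by_contra hcon
  push Not at hcon
  have h0 : ∀ k : κ, φ (U.v (Sum.inr k)) = 0 := by
    intro k
    have h1 : φ (U.v (Sum.inr k)) * φ (U.v (Sum.inr k)) = φ (U.v (Sum.inr k)) := by
      rw [← map_mul, U.vv]
    rcases IsIdempotentElem.iff_eq_zero_or_one.1 h1 with h2 | h2
    · exact h2
    · exact absurd h2 (hcon k)
  have h1 : ∀ i : ι, φ (U.v (Sum.inl i)) = 0 := by
    intro i
    obtain ⟨j, hj⟩ := exists_ne i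
    have e1 : φ (U.v (Sum.inl j)) * φ (U.v (Sum.inl i)) = 0 := by
      rw [← map_mul, U.vw _ _ (fun e => hj (Sum.inl.inj e)), map_zero]
    have e2 : φ (U.v (Sum.inl j)) * φ (U.a (j, i)) = φ (U.a (j, i)) := by
      rw [← map_mul]
      exact congrArg φ (U.va (j, i))
    have e3 : φ (U.g (j, i)) * φ (U.a (j, i)) = φ (U.v (Sum.inl i)) := by
      rw [← map_mul]
      exact congrArg φ (U.ga (j, i))
    rw [← e3, ← e2]
    calc φ (U.g (j, i)) * (φ (U.v (Sum.inl j)) * φ (U.a (j, i)))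
        = φ (U.v (Sum.inl j)) * (φ (U.g (j, i)) * φ (U.a (j, i))) := by ring
      _ = 0 := by rw [e3, e1]
  have h2 : ∑ x : ι ⊕ κ, φ (U.v x) = 1 := by
    rw [← map_sum]
    have : ∑ x : ι ⊕ κ, U.v x = 1 := U.sum
    rw [this, map_one]
  rw [Fintype.sum_sum_type] at h2
  simp only [h0, h1, Finset.sum_const_zero, add_zero] at h2
  exact zero_ne_one h2

lemma char_unique (φ ψ : LPA K (QJ ι κ) →ₐ[K] K) (k : κ)
    (hφ : φ (mkg K (.vert (Sum.inr k))) = 1) (hψ : ψ (mkg K (.vert (Sum.inr k))) = 1) :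
    φ = ψ := by
  let U := univ K (QJ ι κ)
  have key : ∀ χ : LPA K (QJ ι κ) →ₐ[K] K, χ (mkg K (.vert (Sum.inr k))) = 1 →
      ∀ x : ι ⊕ κ, x ≠ Sum.inr k → χ (U.v x) = 0 := by
    intro χ hχ x hx
    have h1 : χ (U.v x) * χ (U.v (Sum.inr k)) = 0 := by
      rw [← map_mul, U.vw _ _ hx, map_zero]
    have h2 : χ (U.v (Sum.inr k)) = 1 := hχ
    rwa [h2, mul_one] at h1
  have keya : ∀ χ : LPA K (QJ ι κ) →ₐ[K] K, χ (mkg K (.vert (Sum.inr k))) = 1 →
      ∀ e : ι × ι, χ (U.a e) = 0 := by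
    intro χ hχ e
    have h1 : χ (U.v (Sum.inl e.1)) * χ (U.a e) = χ (U.a e) := by
      rw [← map_mul]
      exact congrArg χ (U.va e)
    rw [← h1, key χ hχ _ (fun h => nomatch (h : (Sum.inl e.1 : ι ⊕ κ) = Sum.inr k)), zero_mul]
  have keyg : ∀ χ : LPA K (QJ ι κ) →ₐ[K] K, χ (mkg K (.vert (Sum.inr k))) = 1 →
      ∀ e : ι × ι, χ (U.g e) = 0 := by
    intro χ hχ e
    have h1 : χ (U.v (Sum.inl e.2)) * χ (U.g e) = χ (U.g e) := by
      rw [← map_mul]
      exact congrArg χ (U.rg e)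
    rw [← h1, key χ hχ _ (fun h => nomatch (h : (Sum.inl e.2 : ι ⊕ κ) = Sum.inr k)), zero_mul]
  apply hom_ext
  intro x
  rcases x with v | e | e
  · by_cases hv : v = Sum.inr k
    · rw [hv, hφ, hψ]
    · exact (key φ hφ v hv).trans (key ψ hψ v hv).symm
  · exact (keya φ hφ e).trans (keya ψ hψ e).symm
  · exact (keyg φ hφ e).trans (keyg ψ hψ e).symm

end Chars

theorem not_iso (K : Type u) [Field K] :
    IsEmpty (LPA K (QR (Fin 4) (Fin 6)) ≃ₐ[K] LPA K (QJ (Fin 4) (Fin 4))) := by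
  refine ⟨fun e => ?_⟩
  let χ : Fin 6 → (LPA K (QJ (Fin 4) (Fin 4)) →ₐ[K] K) := fun k =>
    ((charFam (ι := Fin 4) (K := K) k).lift).comp (e.symm : _ →ₐ[K] _)
  choose c hc using fun k => exists_vertex (χ k)
  have hinj : Function.Injective c := by
    intro k l h
    have h1 : χ k = χ l := char_unique (χ k) (χ l) (c k) (hc k) (by rw [h]; exact hc l)
    have h2 := congrArg (fun f : LPA K (QJ (Fin 4) (Fin 4)) →ₐ[K] K =>
      f (e (mkg K (.vert (some k))))) h1
    have h3 : ∀ m, (χ m) (e (mkg K (.vert (some k)))) =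
        (charFam (ι := Fin 4) (K := K) m).lift (mkg K (.vert (some k))) := by
      intro m
      change (charFam (ι := Fin 4) (K := K) m).lift (e.symm (e (mkg K (.vert (some k))))) = _
      rw [AlgEquiv.symm_apply_apply]
    simp only [h3] at h2
    rw [charFam_val, charFam_val, if_pos rfl] at h2
    by_contra hne
    rw [if_neg hne] at h2
    exact one_ne_zero h2
  have := Fintype.card_le_of_injective c hinj
  simp at this

end Pool.Agent.R859.LK
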